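import Mathlib
import Pool.Agent.R473.FV.Fam
import Pool.Agent.Y928.PN.Pairs
import Pool.Agent.Results.MP_e47f08_nt.AlternativePolynomial

/-!
# Finite-state predictors for the digits of `ζ(3)/π³` and `8 G - π⁵/(18 ζ(3)) ± (2/3) π²`

Let `x 0 = ζ(3)/π³` and let `x 1`, `x 2` be the numbers `8 G - π⁵/(18 ζ(3)) ± (2/3) π²`, where `G` is
Catalan's constant.  By the starting files at least two of these three numbers are irrational.  Here
it is proved that at least two of the three numbers have digits which, in every base, no finite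
automaton predicts with few errors.

A predictor with `Q` states reads the digits of a number one after the other and predicts each next
digit from its state.  If the digits of `x` in base `b` are eventually periodic, that is if `x` is
rational, then some predictor makes only finitely many errors.  We prove:

(1) for two predictors which work on the digits of `x 0` in a base `b` and on those of `x 1` (or
`x 2`) in a base `b'`, an inequality between the lengths, the numbers of states and the total number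
of errors;

(2) for every `θ < 1` one of `x 0`, `x 1` and one of `x 0`, `x 2` is such that in every base, for
infinitely many `N`, every predictor with at most `N^θ` states makes more than `((1 - θ)/18) log N` errors
on the first `N` digits;

(3) with another constant in place of `1/18` this holds for at least two of the three numbers.

Proof: the simultaneous measures of the starting files (for `x 1`, `x 2` the measure of `π²`).
Without errors an automaton is autonomous and its state runs into a cycle, which gives a rational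
approximation of the corresponding number; the approximations are combined, on the common time scale
`n log b`.
-/

set_option autoImplicit false

open Finset

namespace Pool.Agent.Results.MP_e47f08_nt.FiniteStatePredictors

/-- the `i`-th digit of `x` after the point in base `b` -/
noncomputable def digit (b : ℕ) (x : ℝ) (i : ℕ) : ℤ := ⌊x * (b : ℝ) ^ i⌋ % (b : ℤ)

/-- A predictor: a finite automaton with `Q` states, transitions `δ`, initial state `q₀` and
predictions `out`. -/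
structure Predictor where
  /-- the number of states -/
  Q : ℕ
  /-- the next state -/
  δ : Fin Q → ℤ → Fin Q
  /-- the initial state -/
  q₀ : Fin Q
  /-- the prediction -/
  out : Fin Q → ℤ

/-- the state of the predictor after it has read `d 1, …, d n` -/
def Predictor.state (M : Predictor) (d : ℕ → ℤ) (n : ℕ) : Fin M.Q :=
  Pool.Agent.R473.FP.run M.δ M.q₀ d n

/-- the number of errors on the first `N` terms of `d`: the number of `n < N` such that the
prediction made after reading `d 1, …, d n` is not `d (n + 1)` -/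
def Predictor.errors (M : Predictor) (d : ℕ → ℤ) (N : ℕ) : ℕ :=
  ((range N).filter fun n => M.out (M.state d n) ≠ d (n + 1)).card

/-- in every base `b ≥ 2`, for infinitely many `N`, all predictors with at most `N ^ θ` states make more
than `c log N` errors on the first `N` digits of `x` -/
def Hard (θ c x : ℝ) : Prop :=
  ∀ b : ℕ, 2 ≤ b → ∀ N₀ : ℕ, ∃ N : ℕ, N₀ ≤ N ∧ ∀ M : Predictor, (M.Q : ℝ) ≤ (N : ℝ) ^ θ →
    c * Real.log N < M.errors (digit b x) N

/-- `ζ(3)` -/
noncomputable def zeta3 : ℝ := ∑' j : ℕ, 1 / ((j : ℝ) + 1) ^ 3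

/-- Catalan's constant -/
noncomputable def G : ℝ := ∑' j : ℕ, (-1 : ℝ) ^ j / (2 * (j : ℝ) + 1) ^ 2

/-- `x 0 = ζ(3)/π³`, `x 1 = 8 G - π⁵/(18 ζ(3)) + (2/3) π²`, `x 2 = 8 G - π⁵/(18 ζ(3)) - (2/3) π²` -/
noncomputable def x (i : ℕ) : ℝ :=
  if i = 0 then zeta3 / Real.pi ^ 3
  else if i = 1 then 8 * G - Real.pi ^ 5 / (18 * zeta3) + 2 / 3 * Real.pi ^ 2
  else 8 * G - Real.pi ^ 5 / (18 * zeta3) - 2 / 3 * Real.pi ^ 2

theorem log_num : 2 * Real.log ((2 : ℝ) * 4000) < 18 := by
  suffices h : Real.log ((2 : ℝ) * 4000) < 9 by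
    generalize Real.log (2 * 4000) = t at h ⊢
    linarith
  rw [Real.log_lt_iff_lt_exp (by positivity)]
  have h2 : Real.exp 9 = Real.exp 1 ^ 9 := by
    rw [← Real.exp_nat_mul]
    norm_num
  rw [h2]
  have h3 := Real.exp_one_gt_d9
  calc (2 * 4000 : ℝ) < 2.7182818283 ^ 9 := by norm_num
    _ ≤ _ := pow_le_pow_left₀ (by norm_num) h3.le 9

/-- the simultaneous measures for `x 0` and one of the other numbers -/
theorem meas (k : ℕ) (hk : k = 1 ∨ k = 2) : ∃ c : ℝ, 0 < c ∧ ∀ q : ℕ, 1 ≤ q → ∀ p : ℕ → ℤ,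
    ∃ j ∈ ({0, k} : Finset ℕ), c ≤ (q : ℝ) ^ ((4000 : ℝ) - 1) * |(q : ℝ) * x j - p j| := by
  obtain ⟨ε, hε, hxk⟩ : ∃ ε : ℝ, (ε = 1 ∨ ε = -1) ∧
      x k = 8 * G - Real.pi ^ 5 / (18 * zeta3) + ε * (2 / 3 * Real.pi ^ 2) := by
    rcases hk with rfl | rfl
    · exact ⟨1, Or.inl rfl, by simp only [x, one_ne_zero, if_false, if_true, one_mul]⟩
    · refine ⟨-1, Or.inr rfl, ?_⟩
      simp only [x, OfNat.ofNat_ne_zero, OfNat.ofNat_ne_one, if_false]
      ring
  have hx0 : x 0 = zeta3 / Real.pi ^ 3 := by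
    simp only [x, if_true]
  obtain ⟨⟨c, hc, h1⟩, -⟩ := Pool.Agent.Results.MP_e47f08_nt.AlternativePolynomial.result ε hε
  refine ⟨c, hc, fun q hq p => ?_⟩
  have hq0 : (0 : ℝ) < q := by exact_mod_cast hq
  have h2 := h1 (p k) (p 0) q q hq hq
  have e1 : (q : ℝ) ^ ((4000 : ℝ) - 1) = (q : ℝ) ^ 3999 := by
    rw [← Real.rpow_natCast]
    norm_num
  have e2 : ∀ (y : ℝ) (p : ℤ), |(q : ℝ) * y - p| = q * |y - (p : ℝ) / q| := by
    intro y p
    rw [← abs_of_pos hq0, ← abs_mul, abs_of_pos hq0]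
    congr 1
    field_simp
  have h3 : c / ((q : ℝ) * q) ^ 2000 ≤ max |x 0 - (p 0 : ℝ) / (q : ℝ)| |x k - (p k : ℝ) / (q : ℝ)| := by
    rw [hx0, hxk]
    exact h2
  rw [div_le_iff₀ (by positivity)] at h3
  have e3 : ((q : ℝ) * q) ^ 2000 = (q : ℝ) ^ 3999 * q := by
    rw [← pow_succ, ← sq, ← pow_mul]
  rw [e3] at h3
  rcases max_choice |x 0 - (p 0 : ℝ) / (q : ℝ)| |x k - (p k : ℝ) / (q : ℝ)| with h4 | h4
  · rw [h4] at h3
    refine ⟨0, by simp, ?_⟩
    rw [e1, e2]
    calc c ≤ |x 0 - (p 0 : ℝ) / q| * ((q : ℝ) ^ 3999 * q) := h3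
      _ = _ := by ring
  · rw [h4] at h3
    refine ⟨k, by simp, ?_⟩
    rw [e1, e2]
    calc c ≤ |x k - (p k : ℝ) / q| * ((q : ℝ) ^ 3999 * q) := h3
      _ = _ := by ring

/-- **Predicting the digits of `ζ(3)/π³` and `8 G - π⁵/(18 ζ(3)) ± (2/3) π²`.** -/
theorem result :
    -- (1) a predictor for `x 0` and one for `x k`, `k = 1` or `2`
    (∃ C : ℝ, ∀ k : ℕ, (k = 1 ∨ k = 2) → ∀ (b : ℕ → ℕ) (M : ℕ → Predictor) (N : ℕ → ℕ),
      (∀ j, 2 ≤ b j) → ∃ j ∈ ({0, k} : Finset ℕ), N j * Real.log (b j) ≤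
        (∑ i ∈ range ((M 0).errors (digit (b 0) (x 0)) (N 0) +
          (M k).errors (digit (b k) (x k)) (N k) + 1), (8000 : ℝ) ^ i) *
          (4000 * ((((M 0).Q : ℝ) + 1) * Real.log (b 0) + (((M k).Q : ℝ) + 1) * Real.log (b k)) +
            C)) ∧
    -- (2) one of `x 0`, `x k` is hard for all predictors in all bases
    (∀ θ : ℝ, 0 ≤ θ → θ < 1 → ∀ k : ℕ, (k = 1 ∨ k = 2) →
      Hard θ ((1 - θ) / 18) (x 0) ∨ Hard θ ((1 - θ) / 18) (x k)) ∧
    -- (3) two of the three numbers are hard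
    (∃ c : ℝ, 0 < c ∧ ∀ θ : ℝ, 0 ≤ θ → θ < 1 → ∃ i j : ℕ, i < j ∧ j ≤ 2 ∧
      Hard θ (c * (1 - θ)) (x i) ∧ Hard θ (c * (1 - θ)) (x j)) := by
  obtain ⟨c1, hc1, hM1⟩ := meas 1 (Or.inl rfl)
  obtain ⟨c2, hc2, hM2⟩ := meas 2 (Or.inr rfl)
  have hM : ∀ k : ℕ, (k = 1 ∨ k = 2) → ∀ q : ℕ, 1 ≤ q → ∀ p : ℕ → ℤ,
      ∃ j ∈ ({0, k} : Finset ℕ), min c1 c2 ≤ (q : ℝ) ^ ((4000 : ℝ) - 1) * |(q : ℝ) * x j - p j| := by
    intro k hk q hq p
    rcases hk with rfl | rfl
    · obtain ⟨j, hj, h⟩ := hM1 q hq p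
      exact ⟨j, hj, (min_le_left _ _).trans h⟩
    · obtain ⟨j, hj, h⟩ := hM2 q hq p
      exact ⟨j, hj, (min_le_right _ _).trans h⟩
  have hc : 0 < min c1 c2 := lt_min hc1 hc2
  have hcard : ∀ k : ℕ, (k = 1 ∨ k = 2) → ({0, k} : Finset ℕ).card = 2 := by
    rintro k (rfl | rfl) <;> decide
  have hard : ∀ k : ℕ, (k = 1 ∨ k = 2) → ∀ θ c : ℝ, 0 ≤ θ → 0 ≤ c →
      c * (2 * Real.log (2 * 4000)) < 1 - θ → Hard θ c (x 0) ∨ Hard θ c (x k) := by
    intro k hk θ c h0 h1 h2
    obtain ⟨j, hj, h⟩ := Pool.Agent.R473.FV.fam_hard {0, k} x 4000 (min c1 c2) (by norm_num) hc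
      (hM k hk) θ c h0 h1 (by rw [hcard k hk]; push_cast; exact h2)
    have h3 : Hard θ c (x j) := fun b hb N₀ => by
      obtain ⟨N, hN, h4⟩ := h b hb N₀
      exact ⟨N, hN, fun M hQ => h4 M.Q M.δ M.q₀ M.out hQ⟩
    rcases Finset.mem_insert.1 hj with h5 | h5
    · rw [h5] at h3; exact Or.inl h3
    · rw [Finset.mem_singleton.1 h5] at h3; exact Or.inr h3
  refine ⟨⟨Real.log 2 + |Real.log (min c1 c2)|, fun k hk b M N hb => ?_⟩,
    fun θ h0 h1 k hk => ?_, ?_⟩
  · have h := Pool.Agent.R473.FV.fam_sep {0, k} x 4000 (min c1 c2) (by norm_num) hc (hM k hk) b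
      (fun j _ => hb j) (fun j => (M j).Q) (fun j => (M j).δ) (fun j => (M j).q₀)
      (fun j => (M j).out) N
    have h0k : (0 : ℕ) ≠ k := by rcases hk with rfl | rfl <;> decide
    rw [hcard k hk, Finset.sum_pair h0k, Finset.sum_pair h0k] at h
    have e : ((2 : ℕ) : ℝ) * 4000 = 8000 := by norm_num
    rw [e] at h
    exact h
  · refine hard k hk θ ((1 - θ) / 18) h0 (by
      have : 0 < 1 - θ := by linarith
      positivity) ?_
    have h2 : 0 < 1 - θ := by linarith
    rw [div_mul_eq_mul_div, div_lt_iff₀ (by norm_num)]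
    exact mul_lt_mul_of_pos_left log_num h2
  · obtain ⟨κ, c3, hκ, hc3, hpi⟩ := Pool.Agent.Y928.PN.pi_pair
    have hx : x 1 - x 2 = 4 / 3 * Real.pi ^ 2 := by
      simp only [x, one_ne_zero, if_false, if_true, OfNat.ofNat_ne_zero, OfNat.ofNat_ne_one]
      ring
    have hM12 : ∀ q : ℕ, 1 ≤ q → ∀ p : ℕ → ℤ,
        ∃ j ∈ ({1, 2} : Finset ℕ), c3 ≤ (q : ℝ) ^ ((κ + 1) - 1) * |(q : ℝ) * x j - p j| := by
      intro q hq p
      have h := hpi (x 1) (x 2) hx q hq (p 1) (p 2)
      rw [add_sub_cancel_right]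
      rcases max_choice |(q : ℝ) * x 1 - p 1| |(q : ℝ) * x 2 - p 2| with h3 | h3
      · rw [h3] at h
        exact ⟨1, by simp, h⟩
      · rw [h3] at h
        exact ⟨2, by simp, h⟩
    obtain ⟨D, hD⟩ : ∃ D : ℝ, D = max 18 (2 * Real.log (2 * (κ + 1)) + 1) := ⟨_, rfl⟩
    have hD18 : 18 ≤ D := by rw [hD]; exact le_max_left _ _
    have hDκ : 2 * Real.log (2 * (κ + 1)) < D := by
      have := le_max_right 18 (2 * Real.log (2 * (κ + 1)) + 1)
      rw [hD]
      linarith
    have hD0 : 0 < D := by linarith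
    refine ⟨1 / D, by positivity, fun θ h0 h1 => ?_⟩
    have h2 : 0 < 1 - θ := by linarith
    have e : 1 / D * (1 - θ) = (1 - θ) / D := by ring
    rw [e]
    have hk : ∀ k : ℕ, (k = 1 ∨ k = 2) → Hard θ ((1 - θ) / D) (x 0) ∨ Hard θ ((1 - θ) / D) (x k) :=
      fun k hk => hard k hk θ ((1 - θ) / D) h0 (by positivity) (by
        rw [div_mul_eq_mul_div, div_lt_iff₀ hD0]
        exact mul_lt_mul_of_pos_left (lt_of_lt_of_le log_num hD18) h2)
    have h12 : Hard θ ((1 - θ) / D) (x 1) ∨ Hard θ ((1 - θ) / D) (x 2) := by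
      obtain ⟨j, hj, h⟩ := Pool.Agent.R473.FV.fam_hard {1, 2} x (κ + 1) c3 (by linarith) hc3
        hM12 θ ((1 - θ) / D) h0 (by positivity) (by
          have hc2' : ({1, 2} : Finset ℕ).card = 2 := by decide
          rw [hc2', div_mul_eq_mul_div, div_lt_iff₀ hD0]
          push_cast
          exact mul_lt_mul_of_pos_left hDκ h2)
      have h3 : Hard θ ((1 - θ) / D) (x j) := fun b hb N₀ => by
        obtain ⟨N, hN, h4⟩ := h b hb N₀
        exact ⟨N, hN, fun M hQ => h4 M.Q M.δ M.q₀ M.out hQ⟩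
      rcases Finset.mem_insert.1 hj with h5 | h5
      · rw [h5] at h3; exact Or.inl h3
      · rw [Finset.mem_singleton.1 h5] at h3; exact Or.inr h3
    rcases hk 1 (Or.inl rfl) with hA | hA
    · rcases h12 with hB | hB
      · exact ⟨0, 1, by norm_num, by norm_num, hA, hB⟩
      · exact ⟨0, 2, by norm_num, by norm_num, hA, hB⟩
    · rcases hk 2 (Or.inr rfl) with hB | hB
      · exact ⟨0, 1, by norm_num, by norm_num, hB, hA⟩
      · exact ⟨1, 2, by norm_num, by norm_num, hA, hB⟩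

end Pool.Agent.Results.MP_e47f08_nt.FiniteStatePredictors
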