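import Mathlib
import Pool.Agent.R343.LD4
import Pool.Agent.Results.MP_e47f08_nt.AlternativePolynomial

set_option autoImplicit false

/-!
# The expansions of `ζ(3)/π³` and `8 G - π⁵/(18 ζ(3)) ± (2/3) π²` are not both compressible

A word of letters is cut into `z` phrases (`LZ a L z`, Lempel and Ziv) if each phrase is a single
letter, or a (possibly empty) copy of a block that begins further to the left; the block may
overlap the phrase. A number is rational if and only if its digits in a base are cut into a bounded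
number of phrases, at all scales; the first `L` letters of an automatic sequence have `O(log L)`
phrases.

Let `x 0 = ζ(3)/π³` and `x 1 = 8 G - π⁵/(18 ζ(3)) + ε (2/3) π²`, `ε = 1` or `ε = -1`, `G` Catalan's
constant. Here it is shown that the two numbers are not compressible to few phrases together, in all
bases, for the digits and for all representations by integers of absolute value at most `b ^ h`:

1. in one base with a common parsing: `L ≤ C 4000 ^ z`;
2. each number in its own base `b j`, with a parsing of its own: if the prefixes have at least the real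
   length `Λ` then `Λ ≤ C (log (b 0) + log (b 1)) 4001 ^ (z 0 + z 1)`;
3. for all large `L`, uniformly in the base `b`, for one of the two numbers the first `L` letters are not
   cut into fewer than `(log L) / 17` phrases.

The linear complexity of these expansions (`DigitComplexity`) is a different measure.

The proof: between two scales `t` and `4001 t` without break points of the parsings both expansions are
periodic, and this gives rational approximations with denominators at most `exp t` and errors at most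
`exp (-4001 t)`, up to a factor, against the measure of the starting result `AlternativePolynomial`
(with independent denominators).
-/

namespace Pool.Agent.Results.MP_e47f08_nt.LempelZivExpansions

open Finset Pool.Agent.R343.LP Pool.Agent.R343.LD

/-- `ζ(3)` -/
noncomputable def zeta3 : ℝ := ∑' j : ℕ, 1 / ((j : ℝ) + 1) ^ 3

/-- Catalan's constant -/
noncomputable def G : ℝ := ∑' j : ℕ, (-1 : ℝ) ^ j / (2 * (j : ℝ) + 1) ^ 2

/-- `x 0 = ζ(3)/π³`, `x 1 = 8 G - π⁵/(18 ζ(3)) + ε (2/3) π²` -/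
noncomputable def x (ε : ℝ) (i : ℕ) : ℝ :=
  if i = 0 then zeta3 / Real.pi ^ 3
  else 8 * G - Real.pi ^ 5 / (18 * zeta3) + ε * (2 / 3 * Real.pi ^ 2)

/-- the two indices -/
def T : Finset ℕ := {0, 1}

theorem msP (ε : ℝ) (hε : ε = 1 ∨ ε = -1) : ∃ c : ℝ, 0 < c ∧ MsP T (x ε) 2000 c := by
  obtain ⟨⟨c, hc, h1⟩, -⟩ := Pool.Agent.Results.MP_e47f08_nt.AlternativePolynomial.result ε hε
  refine ⟨c, hc, fun q hq p => ?_⟩
  have hq0 : 1 ≤ q 0 := hq 0 (by decide)
  have hq1 : 1 ≤ q 1 := hq 1 (by decide)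
  have hq0' : (0 : ℝ) < q 0 := by exact_mod_cast hq0
  have hq1' : (0 : ℝ) < q 1 := by exact_mod_cast hq1
  have h2 : c / ((q 1 : ℝ) * q 0) ^ 2000 ≤ max |x ε 0 - (p 0 : ℝ) / q 0| |x ε 1 - (p 1 : ℝ) / q 1| :=
    h1 (p 1) (p 0) (q 1) (q 0) hq1 hq0
  have hprod : ((∏ j ∈ T, q j : ℕ) : ℝ) = q 1 * q 0 := by
    have h3 : ∏ j ∈ T, q j = q 0 * q 1 := by
      unfold T
      rw [Finset.prod_pair (by decide)]
    rw [h3]
    push_cast
    ring
  rw [hprod]
  have h4 : ((q 1 : ℝ) * q 0) ^ (2000 : ℝ) = ((q 1 : ℝ) * q 0) ^ (2000 : ℕ) := by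
    rw [← Real.rpow_natCast]
    norm_num
  rw [h4]
  rw [div_le_iff₀ (by positivity)] at h2
  rcases max_choice |x ε 0 - (p 0 : ℝ) / q 0| |x ε 1 - (p 1 : ℝ) / q 1| with h3 | h3
  · rw [h3] at h2
    exact ⟨0, by decide, by rw [mul_comm]; exact h2⟩
  · rw [h3] at h2
    exact ⟨1, by decide, by rw [mul_comm]; exact h2⟩

theorem ms (ε : ℝ) (hε : ε = 1 ∨ ε = -1) : ∃ c : ℝ, 0 < c ∧ Ms T (x ε) 4000 c := by
  obtain ⟨c, hc, h1⟩ := msP ε hε
  refine ⟨c, hc, fun q hq p => ?_⟩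
  obtain ⟨j, hj, h2⟩ := h1 (fun _ => q) (fun _ _ => hq) p
  refine ⟨j, hj, ?_⟩
  have hq0 : (0 : ℝ) < q := by exact_mod_cast hq
  have hcard : T.card = 2 := by decide
  rw [Finset.prod_const, hcard] at h2
  have e1 : (((q ^ 2 : ℕ) : ℝ)) ^ (2000 : ℝ) = (q : ℝ) ^ 4000 := by
    have e3 : (((q ^ 2 : ℕ) : ℝ)) ^ (2000 : ℝ) = (((q ^ 2 : ℕ) : ℝ)) ^ (2000 : ℕ) := by
      rw [← Real.rpow_natCast]
      norm_num
    rw [e3, Nat.cast_pow, ← pow_mul]
  have e2 : (q : ℝ) ^ ((4000 : ℝ) - 1) = (q : ℝ) ^ 3999 := by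
    rw [← Real.rpow_natCast]
    norm_num
  have e4 : |(q : ℝ) * x ε j - p j| = q * |x ε j - (p j : ℝ) / q| := by
    rw [← abs_of_pos hq0, ← abs_mul, abs_of_pos hq0]
    congr 1
    field_simp
  rw [e1] at h2
  rw [e2, e4]
  calc c ≤ (q : ℝ) ^ 4000 * |x ε j - (p j : ℝ) / q| := h2
    _ = (q : ℝ) ^ 3999 * (q * |x ε j - (p j : ℝ) / q|) := by ring

theorem log_le : Real.log 4001 ≤ 8.4 := by
  have h1 := Real.exp_one_gt_d9
  have h2 : (4001 : ℝ) ^ 5 ≤ Real.exp 1 ^ 42 := by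
    calc (4001 : ℝ) ^ 5 ≤ 2.7182818283 ^ 42 := by norm_num
      _ ≤ _ := pow_le_pow_left₀ (by norm_num) h1.le _
  have h3 := Real.log_le_log (by positivity) h2
  rw [Real.log_pow, Real.log_pow, Real.log_exp] at h3
  push_cast at h3
  linarith

/-- **The expansions of `ζ(3)/π³` and `8 G - π⁵/(18 ζ(3)) ± (2/3) π²`.** (1) One base, one parsing;
(2) each number in its own base; (3) at each large scale one of the numbers has many phrases. -/
theorem result : ∀ ε : ℝ, (ε = 1 ∨ ε = -1) → ∀ h : ℕ, ∃ C : ℝ, 0 < C ∧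
    (∀ b : ℕ, 2 ≤ b → ∀ a : ℕ → ℕ → ℤ, (∀ j ∈ T, ∀ i, |a j i| ≤ ((b ^ h : ℕ) : ℤ)) →
      (∀ j ∈ T, ∃ n : ℤ,
        HasSum (fun i : ℕ => (a j i : ℝ) / (b : ℝ) ^ (i + 1)) (x ε j - n)) →
      ∀ L z : ℕ, LZ (fun i => fun j : T => a j i) L z → (L : ℝ) ≤ C * 4000 ^ z) ∧
    (∀ b : ℕ → ℕ, (∀ j ∈ T, 2 ≤ b j) → ∀ a : ℕ → ℕ → ℤ,
      (∀ j ∈ T, ∀ i, |a j i| ≤ ((b j ^ h : ℕ) : ℤ)) →
      (∀ j ∈ T, ∃ n : ℤ,
        HasSum (fun i : ℕ => (a j i : ℝ) / (b j : ℝ) ^ (i + 1)) (x ε j - n)) →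
      ∀ L z : ℕ → ℕ, (∀ j ∈ T, LZ (a j) (L j) (z j)) → ∀ Λ : ℝ,
        (∀ j ∈ T, Λ ≤ L j * Real.log (b j)) →
        Λ ≤ C * (∑ j ∈ T, Real.log (b j)) * 4001 ^ (∑ j ∈ T, z j)) ∧
    ∃ L₀ : ℕ, ∀ b : ℕ, 2 ≤ b → ∀ a : ℕ → ℕ → ℤ,
      (∀ j ∈ T, ∀ i, |a j i| ≤ ((b ^ h : ℕ) : ℤ)) →
      (∀ j ∈ T, ∃ n : ℤ,
        HasSum (fun i : ℕ => (a j i : ℝ) / (b : ℝ) ^ (i + 1)) (x ε j - n)) →
      ∀ L : ℕ, L₀ ≤ L → ∃ j ∈ T, ∀ z : ℕ, LZ (a j) L z → Real.log L / 17 ≤ z := by
  intro ε hε h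
  obtain ⟨c, hc, hM⟩ := ms ε hε
  obtain ⟨c', hc', hM'⟩ := msP ε hε
  have hcard : (T.card : ℝ) = 2 := by
    have h1 : T.card = 2 := by decide
    rw [h1]
    norm_num
  have hK : (T.card : ℝ) * 2000 + 1 = 4001 := by
    rw [hcard]
    norm_num
  obtain ⟨C1, hC1, h1⟩ := joint T (x ε) 4000 c (by norm_num) hc hM h
  obtain ⟨C2, hC2, h2⟩ := sepP T (x ε) 2000 c' (by norm_num) hc' hM' h
  obtain ⟨L₀, h3⟩ := largeP T (x ε) 2000 c' (by norm_num) hc' hM' h 17 (by
    rw [hK, hcard]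
    have := log_le
    linarith)
  refine ⟨max C1 C2, lt_max_of_lt_left hC1, ?_, ?_, L₀, ?_⟩
  · intro b hb a ha hex L z hLZ
    refine (h1 b hb a ha hex L z hLZ).trans ?_
    exact mul_le_mul_of_nonneg_right (le_max_left _ _) (by positivity)
  · intro b hb a ha hex L z hLZ Λ hΛ
    have h4 := h2 b hb a ha hex L z hLZ Λ hΛ
    rw [hK] at h4
    refine h4.trans ?_
    have h5 : 0 ≤ ∑ j ∈ T, Real.log (b j) := Finset.sum_nonneg fun j hj =>
      Real.log_natCast_nonneg _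
    exact mul_le_mul_of_nonneg_right (mul_le_mul_of_nonneg_right (le_max_right _ _) h5)
      (by positivity)
  · intro b hb a ha hex L hL
    obtain ⟨j, hj, h4⟩ := h3 b hb a ha hex L hL
    refine ⟨j, hj, fun z hz => ?_⟩
    rw [div_le_iff₀ (by norm_num)]
    linarith [h4 z hz]

end Pool.Agent.Results.MP_e47f08_nt.LempelZivExpansions
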