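import Pool.Agent.R347.LC.Gen
import Pool.Agent.Results.MP_e47f08_nt.AlternativePolynomial

/-!
# `ζ(3)/π³` and fields generated by Liouville numbers

Let `q_0, q_1, …` be integers `≥ 2`. A real number `x` is *approximable* if for some `h` and every `κ` there
are, for all large `k`, integers `u` and `1 ≤ v ≤ q_k ^ h` with `|x - u / v| ≤ q_k ^ (-κ)`. The approximable
numbers form a field. Every Liouville number `ξ` is approximable for some sequence, so that `ℚ(ξ)` is contained in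
such a field; for `q_k = 2 ^ ((k + 2)!)` the field has transcendence degree the cardinality of the continuum.

**Theorem.** Let `L` be a field of approximable numbers, for example `ℚ(ξ)` for any Liouville number `ξ`, and let `G`
be Catalan's constant. If `ζ(3)/π³` is in `L` (for instance rational), then neither of the two numbers
`8 G - π⁵/(18 ζ(3)) ± (2/3) π²` is in `L`.

So if `ζ(3) = x π³` with `x ∈ L`, then `8 G - (1/(18 x) ∓ 2/3) π²` is not in `L`. The numbers in `L` are approximated by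
rational numbers with a common denominator, and the measure in the starting file
`Pool/Agent/Results/MP_e47f08_nt/AlternativePolynomial.lean` is used.
-/

set_option autoImplicit false

namespace Pool.Agent.Results.MP_e47f08_nt.LiouvilleCoefficients

/-- For some `h` and every `κ`, for all large `k`, there are integers `u` and `1 ≤ v ≤ (q k) ^ h` with
`|x - u / v| ≤ (q k) ^ (-κ)`. -/
def Approximable (q : ℕ → ℕ) (x : ℝ) : Prop :=
  ∃ h : ℕ, ∀ κ : ℕ, ∃ k₀ : ℕ, ∀ k ≥ k₀, ∃ (u : ℤ) (v : ℕ), 1 ≤ v ∧ v ≤ q k ^ h ∧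
    |x - (u : ℝ) / v| ≤ (((q k : ℕ) : ℝ) ^ κ)⁻¹

/-- The numbers `ζ(3)` and `G`. -/
noncomputable def zetaThree : ℝ := ∑' j : ℕ, 1 / ((j : ℝ) + 1) ^ 3

/-- Catalan's constant `G = ∑ (-1)^j/(2j+1)^2`. -/
noncomputable def catalan : ℝ := ∑' j : ℕ, (-1 : ℝ) ^ j / (2 * (j : ℝ) + 1) ^ 2

/-- For `ε = 1` and for `ε = -1`: if `ζ(3)/π³` is in `L`, then `8 G - π⁵/(18 ζ(3)) + ε (2/3) π²` is not in `L`. -/
def Good (L : IntermediateField ℚ ℝ) : Prop :=
  ∀ ε : ℝ, (ε = 1 ∨ ε = -1) → zetaThree / Real.pi ^ 3 ∈ L →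
    8 * catalan - Real.pi ^ 5 / (18 * zetaThree) + ε * (2 / 3 * Real.pi ^ 2) ∉ L

/-- The sequence `2 ^ ((k + 2)!)`. -/
def q₀ (k : ℕ) : ℕ := 2 ^ (k + 2).factorial

theorem good_of {q : ℕ → ℕ} (hq : ∀ k, 2 ≤ q k) (L : IntermediateField ℚ ℝ)
    (hL : ∀ x ∈ L, Approximable q x) : Good L := by
  intro ε hε hz hX
  obtain ⟨c, hc, h⟩ := (Pool.Agent.Results.MP_e47f08_nt.AlternativePolynomial.result ε hε).1
  obtain ⟨i, hi⟩ := Pool.Agent.R347.LC.simul hq L hL (ι := Fin 2)
    ![zetaThree / Real.pi ^ 3,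
      8 * catalan - Real.pi ^ 5 / (18 * zetaThree) + ε * (2 / 3 * Real.pi ^ 2)]
    ⟨c, 4000, hc, fun v a hv => by
      have h1 := h (a 1) (a 0) v v hv hv
      have h2 : ((v : ℝ) * v) ^ 2000 = (v : ℝ) ^ 4000 := by
        rw [← sq, ← pow_mul]
      rw [h2, le_max_iff] at h1
      rcases h1 with h1 | h1
      · exact ⟨0, h1⟩
      · exact ⟨1, h1⟩⟩
  fin_cases i
  · exact hi hz
  · exact hi hX

/-- **Main result.** -/
theorem result :
    -- the approximable numbers form a field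
    (∀ q : ℕ → ℕ, (∀ k, 2 ≤ q k) → ∃ L : IntermediateField ℚ ℝ, ∀ x, x ∈ L ↔ Approximable q x) ∧
    -- the transcendence degree of the field for the explicit sequence
    ((∀ k, 2 ≤ q₀ k) ∧ ∀ L : IntermediateField ℚ ℝ, (∀ x, x ∈ L ↔ Approximable q₀ x) →
      Algebra.trdeg ℚ L = Cardinal.continuum) ∧
    -- the statement over all fields of approximable numbers
    (∀ q : ℕ → ℕ, (∀ k, 2 ≤ q k) → ∀ L : IntermediateField ℚ ℝ, (∀ x ∈ L, Approximable q x) →
      Good L) ∧
    -- in particular over the field `ℚ(ξ)` for a Liouville number `ξ`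
    (∀ ξ : ℝ, Liouville ξ → Good (IntermediateField.adjoin ℚ {ξ})) := by
  refine ⟨Pool.Agent.R347.LC.field_ex, ⟨Pool.Agent.R347.LC.two_le_qe,
    Pool.Agent.R347.LC.trdeg_qe⟩, fun q hq L hL => good_of hq L hL, fun ξ hξ => ?_⟩
  obtain ⟨q, hq, h⟩ := Pool.Agent.R347.LC.of_liouville hξ
  exact good_of hq _ h

end Pool.Agent.Results.MP_e47f08_nt.LiouvilleCoefficients
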