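import Pool.Agent.R347.EM.Fam
import Pool.Agent.R347.LC.Gen

set_option autoImplicit false

/-!
# `ζ(3)`, `ζ(3) / π³` and generalized Gompertz numbers over fields generated by Liouville numbers

Let `q_0, q_1, …` be integers `≥ 2`. A real number `x` is *approximable* if for some `h` and every `κ` there
are, for all large `k`, integers `u` and `1 ≤ v ≤ q_k ^ h` with `|x - u / v| ≤ q_k ^ (-κ)`. The approximable
numbers form a field. Every Liouville number `ξ` is approximable for some sequence, so that `ℚ(ξ)` is contained in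
such a field; for `q_k = 2 ^ ((k + 2)!)` the field has transcendence degree the cardinality of the continuum.

For an integer `l ≥ 1` and a positive rational number `x` let
`δ_l(x) = ∫_0^∞ log (1 + s / x)^l e^(-s) ds` (`δ_1(1)` is Gompertz's constant).

**Theorem.** Let `L` be a field of approximable numbers, for example `ℚ(ξ)` for any Liouville number `ξ`.

(1) Let `y_1, …, y_r` be real numbers and `P` a set of positive rational numbers `x` for which
`γ + log x` is algebraic over `L(e, y_1, …, y_r)`. For every `c ≥ 0` and every finite set `S` of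
pairs `(l, x)`, `1 ≤ l ≤ 2c + 4`, `x ∈ P`, the field
`L(e, y_1, …, y_r, ζ(3), ζ(3) / π³, ζ(5), ζ(7), …, ζ(2c + 3), δ_l(x) : (l, x) ∈ S)` has
transcendence degree at least `|S| + 1` over `L`.

(2) In the situation of (1) at most `r + c + 2` of the numbers
`ζ(3), ζ(3) / π³, ζ(5), …, ζ(2c + 3), y_1, …, y_r` and `δ_l(x)` (`1 ≤ l ≤ 2c + 4`, `x ∈ P`) are
algebraic over `L(e)`.

(3) Let `G` be the multiplicative group generated by positive rational numbers `b_1, …, b_m`. For
every `c ≥ 0` at most `m + c + 3` of the numbers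
`ζ(3), ζ(3) / π³, ζ(5), …, ζ(2c + 3), γ, log b_1, …, log b_m` and `δ_l(x)` (`1 ≤ l ≤ 2c + 4`, `x ∈ G`)
are algebraic over `L(e)`.

In (2) and (3) numbers of different names are counted separately. For `S` empty (1) says that `e` (with the other
numbers) generates a field of transcendence degree at least `1` over `L`.

The proof makes the proof of the theorem of Siegel and Shidlovskii quantitative (`Pool/Agent/R347/EM/Meas.lean`, on
the basis of the modules `Pool/Agent/R352/E` of this repository), and approximates the elements of `L`.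
-/

namespace Pool.Agent.Results.MP_e47f08_nt.ZetaAndGompertzNumbers

open Set

/-- For some `h` and every `κ`, for all large `k`, there are integers `u` and `1 ≤ v ≤ (q k) ^ h` with
`|x - u / v| ≤ (q k) ^ (-κ)`. -/
def Approximable (q : ℕ → ℕ) (x : ℝ) : Prop :=
  ∃ h : ℕ, ∀ κ : ℕ, ∃ k₀ : ℕ, ∀ k ≥ k₀, ∃ (u : ℤ) (v : ℕ), 1 ≤ v ∧ v ≤ q k ^ h ∧
    |x - (u : ℝ) / v| ≤ (((q k : ℕ) : ℝ) ^ κ)⁻¹

/-- The sequence `2 ^ ((k + 2)!)`. -/
def q₀ (k : ℕ) : ℕ := 2 ^ (k + 2).factorial

/-- the zeta value `ζ(s) = ∑ 1 / n^s` -/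
noncomputable def zeta (s : ℕ) : ℝ := ∑' n : ℕ, 1 / ((n : ℝ) + 1) ^ s

/-- `δ_l(x) = ∫_0^∞ log (1 + s / x)^l e^(-s) ds` -/
noncomputable def delta (l : ℕ) (x : ℚ) : ℝ :=
  ∫ s in Ioi (0 : ℝ), Real.log (1 + s / (x : ℝ)) ^ l * Real.exp (-s)

/-- the names of the numbers -/
inductive Name (c r : ℕ) : Type
  /-- `ζ(3)` -/
  | zetaThree : Name c r
  /-- `ζ(3) / π³` -/
  | ratio : Name c r
  /-- `ζ(5), ζ(7), …, ζ(2c + 3)` -/
  | oddZeta (i : Fin c) : Name c r
  /-- `y_1, …, y_r` -/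
  | given (i : Fin r) : Name c r
  /-- `δ_l(x)`, `1 ≤ l ≤ 2c + 4` -/
  | gompertz (l : Fin (2 * c + 4)) (x : ℚ) : Name c r

/-- the numbers -/
noncomputable def value {c r : ℕ} (y : Fin r → ℝ) : Name c r → ℝ
  | .zetaThree => zeta 3
  | .ratio => zeta 3 / Real.pi ^ 3
  | .oddZeta i => zeta (2 * i + 5)
  | .given i => y i
  | .gompertz l x => delta (l + 1) x

/-- the set of names of the numbers algebraic over `L(e)`, the points `x` being restricted to `P` -/
def algebraicNames (L : IntermediateField ℚ ℝ) (c : ℕ) {r : ℕ} (y : Fin r → ℝ) (P : Set ℚ) : Set (Name c r) :=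
  {i | (∀ l x, i = .gompertz l x → x ∈ P) ∧ IsAlgebraic (IntermediateField.adjoin L {Real.exp 1}) (value y i)}

/-- the names of `ζ(3), ζ(3) / π³, ζ(5), …, ζ(2c + 3), y_1, …, y_r` and of `δ_l(x)`, `(l, x) ∈ S` -/
def names (c r : ℕ) (S : Set (Fin (2 * c + 4) × ℚ)) : Set (Name c r) :=
  {i | ∀ l x, i = .gompertz l x → (l, x) ∈ S}

/-- the multiplicative group generated by `b_1, …, b_m` -/
def group {m : ℕ} (b : Fin m → ℚ) : Set ℚ := {x | ∃ n : Fin m → ℤ, x = ∏ i, b i ^ n i}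

/-- the numbers `γ, log b_1, …, log b_m` -/
noncomputable def logs {m : ℕ} (b : Fin m → ℚ) : Fin (m + 1) → ℝ :=
  Fin.cons Real.eulerMascheroniConstant fun i => Real.log (b i)

/-- the statements (1) and (2) for the field `L` -/
def Good (L : IntermediateField ℚ ℝ) : Prop :=
  ∀ (c r : ℕ) (y : Fin r → ℝ) (P : Set ℚ),
    (∀ x ∈ P, 0 < x ∧ IsAlgebraic (IntermediateField.adjoin L ({Real.exp 1} ∪ range y))
      (Real.eulerMascheroniConstant + Real.log x)) →
    (∀ S : Finset (Fin (2 * c + 4) × ℚ), (∀ p ∈ S, p.2 ∈ P) →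
      ((S.card + 1 : ℕ) : Cardinal) ≤ Algebra.trdeg L (IntermediateField.adjoin L
        ({Real.exp 1} ∪ value y '' names c r S))) ∧
    (algebraicNames L c y P).encard ≤ ((r + c + 2 : ℕ) : ℕ∞)

/-- the statement (3) for the field `L` -/
def GoodGroups (L : IntermediateField ℚ ℝ) : Prop :=
  ∀ (c m : ℕ) (b : Fin m → ℚ), (∀ i, 0 < b i) →
    (algebraicNames L c (logs b) (group b)).encard ≤ ((m + c + 3 : ℕ) : ℕ∞)

/-- the encoding of the names used in the proof -/
def enc {c r : ℕ} : Name c r → Fin (c + 2) ⊕ Fin r ⊕ (Fin (2 * c + 4) × ℚ)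
  | .zetaThree => Sum.inl 0
  | .ratio => Sum.inl 1
  | .oddZeta i => Sum.inl i.succ.succ
  | .given i => Sum.inr (Sum.inl i)
  | .gompertz l x => Sum.inr (Sum.inr (l, x))

theorem enc_injective {c r : ℕ} : Function.Injective (enc (c := c) (r := r)) := by
  intro i j h
  cases i <;> cases j <;> simp_all [enc, Fin.ext_iff]

theorem enc_value {c r : ℕ} (y : Fin r → ℝ) (i : Name c r) :
    Pool.Agent.R352.E.gval (2 * c + 4) (Pool.Agent.R352.E.con3 c) y (enc i) = value y i := by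
  cases i <;> simp [enc, value, Pool.Agent.R352.E.gval, Pool.Agent.R352.E.con3, zeta, delta,
    Pool.Agent.R352.E.zt, Pool.Agent.R352.E.dl]

theorem main {q : ℕ → ℕ} (hq : ∀ k, 2 ≤ q k) {L : IntermediateField ℚ ℝ} (hL : ∀ x ∈ L, Approximable q x)
    {c r : ℕ} (y : Fin r → ℝ) (P : Set ℚ)
    (hP : ∀ x ∈ P, 0 < x ∧ IsAlgebraic (IntermediateField.adjoin L ({Real.exp 1} ∪ range y))
      (Real.eulerMascheroniConstant + Real.log x)) :
    (algebraicNames L c y P).encard ≤ ((r + c + 2 : ℕ) : ℕ∞) := by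
  classical
  refine Pool.Agent.R352.E.encard_le_of_finset _ _ fun t ht => ?_
  have h := Pool.Agent.R347.EM.count_zetaL hq hL y (t.map ⟨enc, enc_injective⟩) ?_ ?_
  · rw [Finset.card_map] at h
    omega
  · intro i hi
    obtain ⟨j, hj, rfl⟩ := Finset.mem_map.1 hi
    rw [Function.Embedding.coeFn_mk, enc_value]
    exact Pool.Agent.R347.EM.mem_cl.2 (ht hj).2
  · intro p hp
    obtain ⟨j, hj, hjp⟩ := Finset.mem_map.1 hp
    have h1 : j = .gompertz p.1 p.2 := enc_injective hjp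
    have h2 := hP p.2 ((ht hj).1 _ _ h1)
    exact ⟨h2.1, Pool.Agent.R347.EM.mem_cl.2 h2.2⟩

theorem main_trdeg {q : ℕ → ℕ} (hq : ∀ k, 2 ≤ q k) {L : IntermediateField ℚ ℝ} (hL : ∀ x ∈ L, Approximable q x)
    {c r : ℕ} (y : Fin r → ℝ) (P : Set ℚ)
    (hP : ∀ x ∈ P, 0 < x ∧ IsAlgebraic (IntermediateField.adjoin L ({Real.exp 1} ∪ range y))
      (Real.eulerMascheroniConstant + Real.log x))
    (S : Finset (Fin (2 * c + 4) × ℚ)) (hS : ∀ p ∈ S, p.2 ∈ P) :
    ((S.card + 1 : ℕ) : Cardinal) ≤ Algebra.trdeg L (IntermediateField.adjoin L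
      ({Real.exp 1} ∪ value y '' names c r S)) := by
  have h := Pool.Agent.R347.EM.trdeg_zetaL hq hL (c := c) y S fun p hp =>
    ⟨(hP _ (hS p hp)).1, Pool.Agent.R347.EM.mem_cl.2 (hP _ (hS p hp)).2⟩
  have e : ({Real.exp 1} ∪ value y '' names c r S : Set ℝ) =
      ({Real.exp 1} ∪ range y ∪ range (Pool.Agent.R352.E.con3 c) ∪
        (fun p : Fin (2 * c + 4) × ℚ => Pool.Agent.R352.E.dl (p.1 + 1) p.2) '' (S : Set _)) := by
    ext z
    constructor
    · rintro (rfl | ⟨i, hi, rfl⟩)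
      · exact Or.inl (Or.inl (Or.inl rfl))
      · cases i with
        | zetaThree => exact Or.inl (Or.inr ⟨0, rfl⟩)
        | ratio => exact Or.inl (Or.inr ⟨1, rfl⟩)
        | oddZeta i =>
          refine Or.inl (Or.inr ⟨i.succ.succ, ?_⟩)
          simp [Pool.Agent.R352.E.con3, value, zeta, Pool.Agent.R352.E.zt]
        | given i => exact Or.inl (Or.inl (Or.inr ⟨i, rfl⟩))
        | gompertz l x => exact Or.inr ⟨(l, x), hi l x rfl, rfl⟩
    · rintro (((rfl | ⟨i, rfl⟩) | ⟨i, rfl⟩) | ⟨p, hp, rfl⟩)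
      · exact Or.inl rfl
      · exact Or.inr ⟨.given i, (fun l x h => nomatch h), rfl⟩
      · refine Fin.cases ?_ (fun i => Fin.cases ?_ (fun i => ?_) i) i
        · exact Or.inr ⟨.zetaThree, (fun l x h => nomatch h), rfl⟩
        · exact Or.inr ⟨.ratio, (fun l x h => nomatch h), rfl⟩
        · refine Or.inr ⟨.oddZeta i, (fun l x h => nomatch h), ?_⟩
          simp [Pool.Agent.R352.E.con3, value, zeta, Pool.Agent.R352.E.zt]
      · refine Or.inr ⟨.gompertz p.1 p.2, ?_, rfl⟩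
        intro l x h
        obtain ⟨rfl, rfl⟩ := Name.gompertz.inj h
        exact hp
  rw [e]
  exact h

theorem group_pos {m : ℕ} {b : Fin m → ℚ} (hb : ∀ i, 0 < b i) {x : ℚ} (hx : x ∈ group b) : 0 < x := by
  obtain ⟨n, rfl⟩ := hx
  exact Finset.prod_pos fun i _ => zpow_pos (hb i) _

theorem group_log (L : IntermediateField ℚ ℝ) {m : ℕ} {b : Fin m → ℚ} (hb : ∀ i, 0 < b i) {x : ℚ} (hx : x ∈ group b) :
    IsAlgebraic (IntermediateField.adjoin L ({Real.exp 1} ∪ range (logs b)))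
      (Real.eulerMascheroniConstant + Real.log x) := by
  obtain ⟨n, rfl⟩ := hx
  have h1 : Real.log ((∏ i, b i ^ n i : ℚ) : ℝ) = ∑ i, (n i : ℝ) * Real.log (b i) := by
    push_cast
    rw [Real.log_prod]
    · refine Finset.sum_congr rfl fun i _ => ?_
      rw [Real.log_zpow]
    · intro i _
      have : (b i : ℝ) ≠ 0 := by exact_mod_cast (hb i).ne'
      exact zpow_ne_zero _ this
  refine Pool.Agent.R347.EM.mem_cl.1 ?_
  rw [h1]
  have h2 : ∀ i, logs b i ∈ Pool.Agent.R352.E.clF ((L : Set ℝ) ∪ ({Real.exp 1} ∪ range (logs b))) := fun i =>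
    Pool.Agent.R352.E.subset_clF _ (Or.inr (Or.inr ⟨i, rfl⟩))
  refine Subfield.add_mem _ (h2 0) (Subfield.sum_mem _ fun i _ => Subfield.mul_mem _ (intCast_mem _ _) ?_)
  exact h2 i.succ

theorem good_of {q : ℕ → ℕ} (hq : ∀ k, 2 ≤ q k) {L : IntermediateField ℚ ℝ} (hL : ∀ x ∈ L, Approximable q x) :
    Good L ∧ GoodGroups L := by
  refine ⟨fun c r y P hP => ⟨main_trdeg hq hL y P hP, main hq hL y P hP⟩, fun c m b hb => ?_⟩
  have h := main hq hL (c := c) (logs b) (group b) fun x hx => ⟨group_pos hb hx, group_log L hb hx⟩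
  refine h.trans_eq ?_
  congr 1
  ring

/-- **Main result.** -/
theorem result :
    -- the approximable numbers form a field
    (∀ q : ℕ → ℕ, (∀ k, 2 ≤ q k) → ∃ L : IntermediateField ℚ ℝ, ∀ x, x ∈ L ↔ Approximable q x) ∧
    -- the transcendence degree of the field for the explicit sequence
    ((∀ k, 2 ≤ q₀ k) ∧ ∀ L : IntermediateField ℚ ℝ, (∀ x, x ∈ L ↔ Approximable q₀ x) →
      Algebra.trdeg ℚ L = Cardinal.continuum) ∧
    -- the statements over all fields of approximable numbers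
    (∀ q : ℕ → ℕ, (∀ k, 2 ≤ q k) → ∀ L : IntermediateField ℚ ℝ, (∀ x ∈ L, Approximable q x) →
      Good L ∧ GoodGroups L) ∧
    -- in particular over the field `ℚ(ξ)` for a Liouville number `ξ`
    (∀ ξ : ℝ, Liouville ξ → Good (IntermediateField.adjoin ℚ {ξ}) ∧ GoodGroups (IntermediateField.adjoin ℚ {ξ})) := by
  refine ⟨Pool.Agent.R347.LC.field_ex, ⟨Pool.Agent.R347.LC.two_le_qe,
    Pool.Agent.R347.LC.trdeg_qe⟩, fun q hq L hL => good_of hq hL, fun ξ hξ => ?_⟩
  obtain ⟨q, hq, h⟩ := Pool.Agent.R347.LC.of_liouville hξ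
  exact good_of hq h

end Pool.Agent.Results.MP_e47f08_nt.ZetaAndGompertzNumbers
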